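import Pool.Agent.N236.RT.Stm

set_option autoImplicit false
set_option linter.unusedSectionVars false

namespace Pool.Agent.N663.RT

open Polynomial

section Gen

variable {E : Type} [NontriviallyNormedField E] [IsUltrametricDist E] [ProperSpace E]

/-- the ring of integers -/
noncomputable abbrev OO (E : Type) [NontriviallyNormedField E] [IsUltrametricDist E] :
    ValuationSubring E := (NormedField.valuation (K := E)).valuationSubring

lemma mem_OO (x : E) : x ∈ OO E ↔ ‖x‖ ≤ 1 := by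
  rw [Valuation.mem_valuationSubring_iff]
  simp [← NNReal.coe_le_coe]

lemma norm_OO (x : OO E) : ‖(x : E)‖ ≤ 1 := (mem_OO _).1 x.2

lemma res_eq_zero (x : OO E) : IsLocalRing.residue (OO E) x = 0 ↔ ‖(x : E)‖ < 1 := by
  rw [IsLocalRing.residue_eq_zero_iff, IsLocalRing.mem_maximalIdeal, mem_nonunits_iff]
  constructor
  · intro h
    by_contra hc
    apply h
    have h1 : ‖(x : E)‖ = 1 := le_antisymm (norm_OO x) (not_lt.1 hc)
    have h0 : (x : E) ≠ 0 := by
      intro h0; rw [h0] at h1; simp at h1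
    have h2 : (x : E)⁻¹ ∈ OO E := by
      rw [mem_OO, norm_inv, h1]; simp
    exact IsUnit.of_mul_eq_one ⟨_, h2⟩ (Subtype.ext (by simp [h0]))
  · rintro h ⟨u, rfl⟩
    have h3 : (((u : OO E) : E)) * (((u⁻¹ : (OO E)ˣ) : OO E) : E) = 1 := by
      rw [← MulMemClass.coe_mul]; simp
    have h4 : ‖(((u : OO E) : E))‖ * ‖(((u⁻¹ : (OO E)ˣ) : OO E) : E)‖ = 1 := by
      rw [← norm_mul, h3, norm_one]
    have h5 := norm_OO (((u⁻¹ : (OO E)ˣ) : OO E))
    nlinarith [norm_nonneg (((u : OO E) : E)), norm_nonneg ((((u⁻¹ : (OO E)ˣ) : OO E) : E))]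

lemma res_eq (x y : OO E) : IsLocalRing.residue (OO E) x = IsLocalRing.residue (OO E) y ↔
    ‖(x : E) - y‖ < 1 := by
  rw [← sub_eq_zero, ← map_sub, res_eq_zero]
  simp

instance fin_res : Finite (IsLocalRing.ResidueField (OO E)) := by
  have hc : IsCompact (Metric.closedBall (0 : E) 1) := isCompact_closedBall 0 1
  obtain ⟨t, ht, hU⟩ := hc.elim_nhds_subcover (fun x => Metric.ball x 1)
    (fun x _ => Metric.ball_mem_nhds x one_pos)
  have ht' : ∀ x ∈ t, x ∈ OO E := fun x hx => by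
    rw [mem_OO]; simpa using ht x hx
  rw [← Set.finite_univ_iff]
  refine (Set.finite_range (fun x : t => IsLocalRing.residue (OO E) ⟨x.1, ht' x.1 x.2⟩)).subset ?_
  intro r _
  obtain ⟨z, rfl⟩ := IsLocalRing.residue_surjective r
  have hz : (z : E) ∈ Metric.closedBall (0 : E) 1 := by simpa using norm_OO z
  have := hU hz
  simp only [Set.mem_iUnion, Metric.mem_ball] at this
  obtain ⟨x, hx, hzx⟩ := this
  refine ⟨⟨x, hx⟩, ?_⟩
  rw [res_eq]
  rw [dist_comm, dist_eq_norm] at hzx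
  exact hzx

/-- A generator of the residue field. -/
lemma exists_gen : ∃ a : E, ‖a‖ = 1 ∧ ∀ b : E, ‖b‖ = 1 → ‖b - a‖ < 1 →
    ∀ z : E, ‖z‖ = 1 → ∃ k : ℕ, ‖z - b ^ k‖ < 1 := by
  obtain ⟨g, hg⟩ := IsCyclic.exists_generator (α := (IsLocalRing.ResidueField (OO E))ˣ)
  obtain ⟨a, ha⟩ := IsLocalRing.residue_surjective (g : IsLocalRing.ResidueField (OO E))
  have ha1 : ‖(a : E)‖ = 1 := by
    apply le_antisymm (norm_OO a)
    by_contra hc
    have := (res_eq_zero a).2 (not_le.1 hc)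
    rw [ha] at this
    exact g.ne_zero this
  refine ⟨a, ha1, ?_⟩
  intro b hb hba z hz
  have hb' : b ∈ OO E := by rw [mem_OO]; exact hb.le
  have hz' : z ∈ OO E := by rw [mem_OO]; exact hz.le
  have hbr : IsLocalRing.residue (OO E) ⟨b, hb'⟩ = g := by
    rw [← ha, res_eq]; exact hba
  have hzr : IsLocalRing.residue (OO E) ⟨z, hz'⟩ ≠ 0 := by
    intro h0
    rw [res_eq_zero] at h0
    simp only at h0
    linarith
  have := hg (Units.mk0 _ hzr)
  rw [← mem_powers_iff_mem_zpowers] at this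
  obtain ⟨k, hk⟩ := this
  refine ⟨k, ?_⟩
  have hk2 : (g : IsLocalRing.ResidueField (OO E)) ^ k = IsLocalRing.residue (OO E) ⟨z, hz'⟩ := by
    have := congrArg Units.val hk
    simpa using this
  rw [← hbr, ← map_pow, eq_comm, res_eq] at hk2
  simpa using hk2

lemma exists_q : ∃ q : ℕ, 0 < q ∧ ‖(q : E)‖ < 1 ∧ ∀ z : E, ‖z‖ ≤ 1 → ‖z ^ q - z‖ < 1 := by
  have : Fintype (IsLocalRing.ResidueField (OO E)) := Fintype.ofFinite _
  refine ⟨Fintype.card (IsLocalRing.ResidueField (OO E)), Fintype.card_pos, ?_, ?_⟩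
  · have h := FiniteField.cast_card_eq_zero (IsLocalRing.ResidueField (OO E))
    have h2 : IsLocalRing.residue (OO E)
      ((Fintype.card (IsLocalRing.ResidueField (OO E)) : ℕ) : OO E) = 0 := by
      rw [map_natCast]; exact h
    rw [res_eq_zero] at h2
    simpa using h2
  · intro z hz
    have hz' : z ∈ OO E := by rw [mem_OO]; exact hz
    have h := FiniteField.pow_card (IsLocalRing.residue (OO E) ⟨z, hz'⟩)
    rw [← map_pow, res_eq] at h
    simpa using h

/-- A uniformizer. -/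
lemma exists_unif : ∃ π : E, π ≠ 0 ∧ ‖π‖ < 1 ∧ ∀ z : E, ‖z‖ < 1 → ‖z‖ ≤ ‖π‖ := by
  have hc : IsCompact (Metric.ball (0 : E) 1) :=
    (isCompact_closedBall (0 : E) 1).of_isClosed_subset (IsUltrametricDist.isClosed_ball 0 1)
      Metric.ball_subset_closedBall
  obtain ⟨c, hc0, hc1⟩ := NormedField.exists_norm_lt_one E
  obtain ⟨π, hπ, hmax⟩ := hc.exists_isMaxOn ⟨c, by simpa using hc1⟩
    (f := fun x : E => ‖x‖) (continuous_norm.continuousOn)
  have hπ1 : ‖π‖ < 1 := by simpa using hπ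
  have hm : ∀ z : E, ‖z‖ < 1 → ‖z‖ ≤ ‖π‖ := fun z hz => hmax (by simpa using hz)
  refine ⟨π, ?_, hπ1, hm⟩
  intro h0
  have := hm c hc1
  rw [h0, norm_zero] at this
  linarith

lemma ultra_add {x y : E} {c : ℝ} (hx : ‖x‖ ≤ c) (hy : ‖y‖ ≤ c) : ‖x + y‖ ≤ c :=
  (IsUltrametricDist.norm_add_le_max x y).trans (max_le hx hy)

lemma ultra_add_lt {x y : E} {c : ℝ} (hx : ‖x‖ < c) (hy : ‖y‖ < c) : ‖x + y‖ < c :=
  (IsUltrametricDist.norm_add_le_max x y).trans_lt (max_lt hx hy)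

lemma norm_sub_pow_lt {x y : E} (hx : ‖x‖ ≤ 1) (hy : ‖y‖ ≤ 1) (h : ‖x - y‖ < 1) (n : ℕ) :
    ‖x ^ n - y ^ n‖ < 1 := by
  induction n with
  | zero => simp
  | succ n ih =>
    have e : x ^ (n + 1) - y ^ (n + 1) = (x ^ n - y ^ n) * x + y ^ n * (x - y) := by ring
    rw [e]
    apply ultra_add_lt
    · rw [norm_mul]
      nlinarith [norm_nonneg (x ^ n - y ^ n), norm_nonneg x]
    · rw [norm_mul, norm_pow]
      have : ‖y‖ ^ n ≤ 1 := pow_le_one₀ (norm_nonneg _) hy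
      nlinarith [norm_nonneg (x - y), pow_nonneg (norm_nonneg y) n]

/-- The element `θ`. -/
lemma exists_theta : ∃ θ : E, ‖θ‖ = 1 ∧ (∃ q : ℕ, θ ^ q - θ ≠ 0 ∧ ‖θ ^ q - θ‖ < 1 ∧
    ∀ z : E, ‖z‖ < 1 → ‖z‖ ≤ ‖θ ^ q - θ‖) ∧ ∀ z : E, ‖z‖ = 1 → ∃ k : ℕ, ‖z - θ ^ k‖ < 1 := by
  obtain ⟨a, ha1, ha⟩ := exists_gen (E := E)
  obtain ⟨q, hq0, hq1, hq⟩ := exists_q (E := E)
  obtain ⟨π, hπ0, hπ1, hπ⟩ := exists_unif (E := E)
  have hπpos : 0 < ‖π‖ := norm_pos_iff.2 hπ0
  by_cases h : ‖a ^ q - a‖ = ‖π‖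
  · refine ⟨a, ha1, ⟨q, ?_, ?_, ?_⟩, ?_⟩
    · intro h0; rw [h0, norm_zero] at h; linarith
    · rw [h]; exact hπ1
    · rw [h]; exact hπ
    · intro z hz
      exact ha a ha1 (by simp) z hz
  · have hlt : ‖a ^ q - a‖ < ‖π‖ := lt_of_le_of_ne (hπ _ (hq a ha1.le)) h
    have hb1 : ‖a + π‖ = 1 := by
      have hne : ‖a‖ ≠ ‖π‖ := by rw [ha1]; exact hπ1.ne'
      rw [IsUltrametricDist.norm_add_eq_max_of_norm_ne_norm hne, ha1]
      exact max_eq_left hπ1.le
    -- (a+π)^q - a^q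
    have hs : ∀ n : ℕ, ∃ s : E, (a + π) ^ n - a ^ n = π * s ∧
        ‖s - n * a ^ (n - 1)‖ < 1 := by
      intro n
      induction n with
      | zero => exact ⟨0, by simp, by simp⟩
      | succ n ih =>
        obtain ⟨s, hs1, hs2⟩ := ih
        refine ⟨s * (a + π) + a ^ n, ?_, ?_⟩
        · have : (a + π) ^ (n + 1) - a ^ (n + 1) = ((a + π) ^ n - a ^ n) * (a + π) + a ^ n * π := by
            ring
          rw [this, hs1]; ring
        · have e : s * (a + π) + a ^ n - ((n + 1 : ℕ) : E) * a ^ (n + 1 - 1) =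
            (s - n * a ^ (n - 1)) * (a + π) + n * a ^ (n - 1) * π := by
            rcases Nat.eq_zero_or_pos n with h0 | h0
            · subst h0; simp
            · obtain ⟨m, rfl⟩ : ∃ m, n = m + 1 := ⟨n - 1, by omega⟩
              simp only [Nat.add_sub_cancel]
              push_cast
              ring
          rw [e]
          apply ultra_add_lt
          · rw [norm_mul, hb1, mul_one]; exact hs2
          · rw [norm_mul, norm_mul, norm_pow, ha1, one_pow, mul_one]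
            have : ‖(n : E)‖ ≤ 1 := IsUltrametricDist.norm_natCast_le_one E n
            nlinarith [norm_nonneg (n : E), norm_nonneg π]
    obtain ⟨s, hs1, hs2⟩ := hs q
    have hs3 : ‖s‖ < 1 := by
      have : s = (s - q * a ^ (q - 1)) + q * a ^ (q - 1) := by ring
      rw [this]
      apply ultra_add_lt hs2
      rw [norm_mul, norm_pow, ha1, one_pow, mul_one]; exact hq1
    have e : (a + π) ^ q - (a + π) = (a ^ q - a + π * s) + (- π) := by
      linear_combination hs1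
    have hN : ‖(a + π) ^ q - (a + π)‖ = ‖π‖ := by
      have hl : ‖a ^ q - a + π * s‖ < ‖π‖ := by
        apply ultra_add_lt hlt
        rw [norm_mul]
        nlinarith
      have hne : ‖a ^ q - a + π * s‖ ≠ ‖-π‖ := by rw [norm_neg]; exact hl.ne
      rw [e, IsUltrametricDist.norm_add_eq_max_of_norm_ne_norm hne, norm_neg]
      exact max_eq_right hl.le
    refine ⟨a + π, hb1, ⟨q, ?_, ?_, ?_⟩, ?_⟩
    · intro h0; rw [h0, norm_zero] at hN; linarith
    · rw [hN]; exact hπ1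
    · rw [hN]; exact hπ
    · intro z hz
      exact ha (a + π) hb1 (by simpa using hπ1) z hz

/-- Approximation of integers by elements of a subring containing `θ`. -/
lemma approx (θ : E) (w : E) (hw0 : w ≠ 0)
    (hw : ∀ z : E, ‖z‖ < 1 → ‖z‖ ≤ ‖w‖) (hk : ∀ z : E, ‖z‖ = 1 → ∃ k : ℕ, ‖z - θ ^ k‖ < 1)
    (R : Subring E) (hR : θ ∈ R) (hwR : w ∈ R) (n : ℕ) (z : E) (hz : ‖z‖ ≤ 1) :
    ∃ r ∈ R, ‖z - r‖ ≤ ‖w‖ ^ n := by
  induction n with
  | zero => exact ⟨0, R.zero_mem, by simpa using hz⟩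
  | succ n ih =>
    obtain ⟨r, hr, hzr⟩ := ih
    have hwn : w ^ n ≠ 0 := pow_ne_zero _ hw0
    have hpos : 0 < ‖w ^ n‖ := norm_pos_iff.2 hwn
    have h1 : ‖(z - r) / w ^ n‖ ≤ 1 := by
      rw [norm_div, div_le_one hpos, norm_pow]; exact hzr
    obtain ⟨s, hs, hzs⟩ : ∃ s ∈ R, ‖(z - r) / w ^ n - s‖ ≤ ‖w‖ := by
      rcases h1.lt_or_eq with h | h
      · exact ⟨0, R.zero_mem, by simpa using hw _ h⟩
      · obtain ⟨k, hk'⟩ := hk _ h
        exact ⟨θ ^ k, R.pow_mem hR k, hw _ hk'⟩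
    refine ⟨r + w ^ n * s, R.add_mem hr (R.mul_mem (R.pow_mem hwR n) hs), ?_⟩
    have e : z - (r + w ^ n * s) = w ^ n * ((z - r) / w ^ n - s) := by
      field_simp
      ring
    rw [e, norm_mul, norm_pow, pow_succ]
    exact mul_le_mul_of_nonneg_left hzs (pow_nonneg (norm_nonneg _) _)

end Gen

open IntermediateField

lemma isInt (p : ℕ) [Fact p.Prime] (x : PadicAlgCl p) (hx : ‖x‖ ≤ 1) : IsIntegral ℤ_[p] x := by
  have hi : IsIntegral ℚ_[p] x := (PadicAlgCl.isAlgebraic p).isAlgebraic x |>.isIntegral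
  have hm := minpoly.monic hi
  have h1 : ∀ n, ‖(minpoly ℚ_[p] x).coeff n‖ ≤ 1 := by
    rw [← spectralValue_le_one_iff hm]
    exact hx
  have h2 : minpoly ℚ_[p] x ∈ Polynomial.lifts (algebraMap ℤ_[p] ℚ_[p]) := by
    rw [Polynomial.lifts_iff_coeff_lifts]
    intro n
    exact ⟨⟨_, h1 n⟩, rfl⟩
  obtain ⟨f, hf, hfd, hfm⟩ := Polynomial.lifts_and_natDegree_eq_and_monic h2 hm
  refine ⟨f, hfm, ?_⟩
  have h3 := minpoly.aeval ℚ_[p] x
  rw [← hf, Polynomial.aeval_def, Polynomial.eval₂_map, ← IsScalarTower.algebraMap_eq] at h3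
  exact h3

theorem t_mono : Pool.Agent.N236.RT.S_MONO := by
  intro p _ u v hu hv
  let E : IntermediateField ℚ_[p] (PadicAlgCl p) := IntermediateField.adjoin ℚ_[p] {u, v}
  have hfin : FiniteDimensional ℚ_[p] E := by
    exact IntermediateField.finiteDimensional_adjoin (fun x _ =>
      ((PadicAlgCl.isAlgebraic p).isAlgebraic x).isIntegral)
  have huE : u ∈ E := IntermediateField.subset_adjoin _ _ (by simp)
  have hvE : v ∈ E := IntermediateField.subset_adjoin _ _ (by simp)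
  have : ProperSpace E := FiniteDimensional.proper ℚ_[p] E
  have : IsUltrametricDist E := inferInstance
  obtain ⟨θ, hθ1, ⟨q, hw0, hw1, hw⟩, hk⟩ := exists_theta (E := E)
  have hθi : IsIntegral ℤ_[p] (θ : PadicAlgCl p) := isInt p _ hθ1.le
  have : ContinuousSMul ℤ_[p] (PadicAlgCl p) := by
    refine ⟨?_⟩
    have : (fun q : ℤ_[p] × PadicAlgCl p => q.1 • q.2) =
        fun q : ℤ_[p] × PadicAlgCl p => (q.1 : ℚ_[p]) • q.2 := by
      funext q
      rw [Algebra.smul_def, Algebra.smul_def, IsScalarTower.algebraMap_apply ℤ_[p] ℚ_[p]]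
      rfl
    rw [this]
    exact (continuous_subtype_val.comp continuous_fst).smul continuous_snd
  have hcl : IsClosed ((Algebra.adjoin ℤ_[p] {(θ : PadicAlgCl p)} : Subalgebra ℤ_[p] (PadicAlgCl p)) :
      Set (PadicAlgCl p)) :=
    (Submodule.isCompact_of_fg hθi.fg_adjoin_singleton).isClosed
  have key : ∀ z : E, ‖z‖ ≤ 1 → (z : PadicAlgCl p) ∈ Algebra.adjoin ℤ_[p] {(θ : PadicAlgCl p)} := by
    intro z hz
    let R : Subring E := (Algebra.adjoin ℤ_[p] {(θ : PadicAlgCl p)}).toSubring.comap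
      (algebraMap E (PadicAlgCl p))
    have hR : θ ∈ R := by
      change (θ : PadicAlgCl p) ∈ Algebra.adjoin ℤ_[p] {(θ : PadicAlgCl p)}
      exact Algebra.self_mem_adjoin_singleton _ _
    have hwR : θ ^ q - θ ∈ R := R.sub_mem (R.pow_mem hR q) hR
    have hmem : (z : PadicAlgCl p) ∈ closure
        ((Algebra.adjoin ℤ_[p] {(θ : PadicAlgCl p)} : Subalgebra ℤ_[p] (PadicAlgCl p)) :
          Set (PadicAlgCl p)) := by
      rw [Metric.mem_closure_iff]
      intro ε hε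
      obtain ⟨n, hn⟩ := exists_pow_lt_of_lt_one hε hw1
      obtain ⟨r, hr, hzr⟩ := approx θ (θ ^ q - θ) hw0 hw hk R hR hwR n z hz
      refine ⟨(r : PadicAlgCl p), hr, ?_⟩
      rw [dist_eq_norm]
      exact lt_of_le_of_lt hzr hn
    rwa [hcl.closure_eq] at hmem
  exact ⟨θ, hθi, key ⟨u, huE⟩ hu, key ⟨v, hvE⟩ hv⟩


end Pool.Agent.N663.RT
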